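import Pool.Agent.H919R3.Stmt.Defs

set_option autoImplicit false
set_option linter.unusedSectionVars false

open scoped TensorProduct

namespace Pool.Agent.H919R3.Grp

open Pool.Agent.H919R3.Stmt

section perm
variable {X : Type} [Fintype X] [DecidableEq X]

/-- the relation operator -/
noncomputable def Rop (α τ : Equiv.Perm X) : ((X → ℚ) × (X → ℚ) × (X → ℚ)) →ₗ[ℚ] (X → ℚ) where
  toFun p := fun q => p.2.1 (α q) + p.1 q - p.1 (α (τ q)) - p.1 (τ q) - p.2.1 q
  map_add' := by
    intro p p'; ext q; simp only [Prod.fst_add, Prod.snd_add, Pi.add_apply]; ring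
  map_smul' := by
    intro c p; ext q
    simp only [Prod.smul_fst, Prod.smul_snd, Pi.smul_apply, smul_eq_mul, RingHom.id_apply]; ring

theorem odd_order (α τ : Equiv.Perm X) (h : τ * α = α ^ 2 * τ) : ∃ k : ℕ, (α ^ 2) ^ k = α := by
  have h1 : MulAut.conj τ α = α ^ 2 := by
    rw [MulAut.conj_apply, h]; group
  have h2 : orderOf (α ^ 2) = orderOf α := by
    rw [← h1]; exact (MulAut.conj τ).orderOf_eq α
  have hpos : 0 < orderOf α := orderOf_pos α
  rw [orderOf_pow' α (by norm_num)] at h2
  have h3 : Nat.gcd (orderOf α) 2 = 1 := by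
    have hg : Nat.gcd (orderOf α) 2 ∣ 2 := Nat.gcd_dvd_right _ _
    rcases (Nat.dvd_prime Nat.prime_two).1 hg with h | h
    · exact h
    · rw [h] at h2; omega
  have h4 : ¬ 2 ∣ orderOf α := by
    intro h5
    have : 2 ∣ Nat.gcd (orderOf α) 2 := Nat.dvd_gcd h5 dvd_rfl
    rw [h3] at this; omega
  refine ⟨(orderOf α + 1) / 2, ?_⟩
  rw [← pow_mul]
  have : 2 * ((orderOf α + 1) / 2) = orderOf α + 1 := by omega
  rw [this, pow_succ, pow_orderOf_eq_one, one_mul]

theorem Rop_surj (α τ : Equiv.Perm X) (h : τ * α = α ^ 2 * τ) :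
    LinearMap.range (Rop α τ) = ⊤ := by
  by_contra hne
  obtain ⟨f, hf0, hf⟩ := Submodule.exists_le_ker_of_lt_top _ (lt_top_iff_ne_top.2 hne)
  have hfz : ∀ p, f (Rop α τ p) = 0 := fun p => hf ⟨p, rfl⟩
  set m : X → ℚ := fun q => f (Pi.single q 1) with hm
  have hfm : ∀ v : X → ℚ, f v = ∑ q, v q * m q := by
    intro v
    conv_lhs => rw [pi_eq_sum_univ' v]
    rw [map_sum]
    refine Finset.sum_congr rfl fun q _ => ?_
    rw [map_smul, smul_eq_mul]
  have hα : ∀ p, m (α⁻¹ p) = m p := by
    intro p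
    have h1 := hfz (0, Pi.single p 1, 0)
    rw [hfm] at h1
    have h2 : ∀ q, (Rop α τ (0, Pi.single p 1, 0)) q
        = (Pi.single (α⁻¹ p) 1 : X → ℚ) q - (Pi.single p 1 : X → ℚ) q := by
      intro q
      simp only [Rop, LinearMap.coe_mk, AddHom.coe_mk, Pi.zero_apply, Pi.single_apply]
      have : (α q = p) ↔ (q = α⁻¹ p) := by
        rw [Equiv.Perm.eq_inv_iff_eq]
      simp [this]
    simp only [h2, sub_mul, Finset.sum_sub_distrib] at h1
    simp only [Pi.single_apply, ite_mul, one_mul, zero_mul, Finset.sum_ite_eq',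
      Finset.mem_univ, if_true] at h1
    linarith
  have hτ : ∀ p, m p = m (τ⁻¹ (α⁻¹ p)) + m (τ⁻¹ p) := by
    intro p
    have h1 := hfz (Pi.single p 1, 0, 0)
    rw [hfm] at h1
    have h2 : ∀ q, (Rop α τ (Pi.single p 1, 0, 0)) q
        = (Pi.single p 1 : X → ℚ) q - (Pi.single (τ⁻¹ (α⁻¹ p)) 1 : X → ℚ) q
          - (Pi.single (τ⁻¹ p) 1 : X → ℚ) q := by
      intro q
      simp only [Rop, LinearMap.coe_mk, AddHom.coe_mk, Pi.zero_apply, Pi.single_apply]
      have e1 : (α (τ q) = p) ↔ (q = τ⁻¹ (α⁻¹ p)) := by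
        rw [Equiv.Perm.eq_inv_iff_eq, Equiv.Perm.eq_inv_iff_eq]
      have e2 : (τ q = p) ↔ (q = τ⁻¹ p) := by
        rw [Equiv.Perm.eq_inv_iff_eq]
      simp [e1, e2]
    simp only [h2, sub_mul, Finset.sum_sub_distrib] at h1
    simp only [Pi.single_apply, ite_mul, one_mul, zero_mul, Finset.sum_ite_eq',
      Finset.mem_univ, if_true] at h1
    linarith
  have hα' : ∀ p, m (α p) = m p := by
    intro p
    have := hα (α p)
    have e : α⁻¹ (α p) = p := by simp
    rw [e] at this
    exact this.symm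
  -- `μ p = m (τ⁻¹ p)` is invariant under `α ^ 2`
  have hμ2 : ∀ p, m (τ⁻¹ ((α ^ 2) p)) = m (τ⁻¹ p) := by
    intro p
    have h1 : α * τ⁻¹ = τ⁻¹ * α ^ 2 := by
      rw [eq_inv_mul_iff_mul_eq, ← mul_assoc, h, mul_inv_cancel_right]
    have h2 : (τ⁻¹ * α ^ 2) p = (α * τ⁻¹) p := by rw [h1]
    have h3 : τ⁻¹ ((α ^ 2) p) = α (τ⁻¹ p) := h2
    rw [h3, hα']
  obtain ⟨k, hk⟩ := odd_order α τ h
  have hμk : ∀ (j : ℕ) p, m (τ⁻¹ (((α ^ 2) ^ j) p)) = m (τ⁻¹ p) := by
    intro j
    induction j with
    | zero => intro p; simp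
    | succ j ih =>
      intro p
      rw [pow_succ, Equiv.Perm.mul_apply, ih, hμ2]
  have hμ : ∀ p, m (τ⁻¹ (α p)) = m (τ⁻¹ p) := by
    intro p
    have := hμk k p
    rwa [hk] at this
  have hμ' : ∀ p, m (τ⁻¹ (α⁻¹ p)) = m (τ⁻¹ p) := by
    intro p
    have := hμ (α⁻¹ p)
    have e : α (α⁻¹ p) = p := by simp
    rw [e] at this
    exact this.symm
  have h2m : ∀ p, m p = 2 * m (τ⁻¹ p) := by
    intro p
    rw [hτ p, hμ']; ring
  have hsum : ∑ p, |m p| = 2 * ∑ p, |m p| := by
    calc ∑ p, |m p| = ∑ p, 2 * |m (τ⁻¹ p)| := by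
          refine Finset.sum_congr rfl fun p _ => ?_
          rw [h2m p, abs_mul, abs_two]
      _ = 2 * ∑ p, |m (τ⁻¹ p)| := by rw [Finset.mul_sum]
      _ = 2 * ∑ p, |m p| := by rw [Equiv.sum_comp τ⁻¹ (fun p => |m p|)]
  have hsum0 : ∑ p, |m p| = 0 := by linarith
  have hm0 : ∀ p, m p = 0 := by
    intro p
    have := (Finset.sum_eq_zero_iff_of_nonneg (fun p _ => abs_nonneg (m p))).1 hsum0 p
      (Finset.mem_univ p)
    exact abs_eq_zero.1 this
  apply hf0
  apply LinearMap.ext
  intro v
  rw [hfm]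
  simp [hm0]

theorem ker_Rop_finrank (α τ : Equiv.Perm X) (h : τ * α = α ^ 2 * τ) :
    Module.finrank ℚ (LinearMap.ker (Rop α τ)) = 2 * Fintype.card X := by
  have h1 := LinearMap.finrank_range_add_finrank_ker (Rop α τ)
  rw [Rop_surj α τ h, finrank_top] at h1
  simp only [Module.finrank_prod, Module.finrank_fintype_fun_eq_card] at h1
  omega

end perm

section coc
variable {G : Type} [Group G] (H : Subgroup G)

/-- `σ(yq)⁻¹ y σ(q) ∈ H` -/
noncomputable def dlt (y : G) (q : G ⧸ H) : H :=
  ⟨(Quotient.out (y • q) : G)⁻¹ * (y * (Quotient.out q : G)), by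
    have h1 : ((Quotient.out (y • q) : G) : G ⧸ H) = ((y * (Quotient.out q : G) : G) : G ⧸ H) := by
      rw [QuotientGroup.out_eq']
      conv_lhs => rw [← QuotientGroup.out_eq' q]
      rfl
    exact QuotientGroup.eq.1 h1⟩

theorem dlt_mul (y z : G) (q : G ⧸ H) : dlt H (y * z) q = dlt H y (z • q) * dlt H z q := by
  apply Subtype.ext
  simp only [dlt, Subgroup.coe_mul, mul_smul]
  group

/-- evaluation of a functional on `ℚ ⊗ H^ab` at an element of `H` -/
noncomputable def ev (H : Type) [Group H] :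
    Module.Dual ℚ (ℚ ⊗[ℤ] Additive (Abelianization H)) →ₗ[ℚ] (H → ℚ) where
  toFun ψ := fun h => ψ (1 ⊗ₜ[ℤ] Additive.ofMul (Abelianization.of h))
  map_add' _ _ := rfl
  map_smul' _ _ := rfl

theorem ev_mul {H : Type} [Group H] (ψ : Module.Dual ℚ (ℚ ⊗[ℤ] Additive (Abelianization H)))
    (h k : H) : ev H ψ (h * k) = ev H ψ h + ev H ψ k := by
  simp only [ev, LinearMap.coe_mk, AddHom.coe_mk]
  rw [map_mul, ofMul_mul, TensorProduct.tmul_add, map_add]

theorem ev_one {H : Type} [Group H] (ψ : Module.Dual ℚ (ℚ ⊗[ℤ] Additive (Abelianization H))) :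
    ev H ψ 1 = 0 := by
  have := ev_mul ψ 1 1
  rw [mul_one] at this
  linarith

theorem ev_inj {H : Type} [Group H] : Function.Injective (ev H) := by
  rw [injective_iff_map_eq_zero]
  intro ψ hψ
  apply LinearMap.ext
  intro v
  induction v using TensorProduct.induction_on with
  | zero => simp
  | tmul c w =>
    obtain ⟨h, hh⟩ := QuotientGroup.mk_surjective (Additive.toMul w)
    have h1 : w = Additive.ofMul (Abelianization.of h) :=
      congrArg Additive.ofMul hh.symm
    have h2 : c ⊗ₜ[ℤ] w = c • ((1 : ℚ) ⊗ₜ[ℤ] w) := by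
      rw [TensorProduct.smul_tmul', smul_eq_mul, mul_one]
    rw [h2, map_smul, h1]
    have h3 : ψ (1 ⊗ₜ[ℤ] Additive.ofMul (Abelianization.of h)) = 0 := congrFun hψ h
    rw [h3]; simp
  | add v w hv hw => rw [map_add, hv, hw]; simp

variable [Fintype (G ⧸ H)]

theorem bettiOne_le [H.FiniteIndex] (x a t : G) (hgen : Subgroup.closure ({x, a, t} : Set G) = ⊤)
    (hrel : t * a = a ^ 2 * t) : bettiOne H ≤ H.index + 1 := by
  classical
  let M := Module.Dual ℚ (ℚ ⊗[ℤ] Additive (Abelianization H))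
  let X := G ⧸ H
  -- the cocycle
  let d : G → (M × (X → ℚ)) →ₗ[ℚ] (X → ℚ) := fun y =>
    { toFun := fun p q => ev H p.1 (dlt H y q) + p.2 (y • q) - p.2 q
      map_add' := by
        intro p p'; ext q
        simp only [Prod.fst_add, Prod.snd_add, Pi.add_apply, map_add]; ring
      map_smul' := by
        intro c p; ext q
        simp only [Prod.smul_fst, Prod.smul_snd, Pi.smul_apply, smul_eq_mul, RingHom.id_apply,
          map_smul]; ring }
  have hd : ∀ y p q, d y p q = ev H p.1 (dlt H y q) + p.2 (y • q) - p.2 q := fun _ _ _ => rfl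
  have hdmul : ∀ y z p q, d (y * z) p q = d y p (z • q) + d z p q := by
    intro y z p q
    rw [hd, hd, hd, dlt_mul, ev_mul, mul_smul]; ring
  let Φ : (M × (X → ℚ)) →ₗ[ℚ] ((X → ℚ) × (X → ℚ) × (X → ℚ)) := (d a).prod ((d t).prod (d x))
  let α : Equiv.Perm X := MulAction.toPermHom G X a
  let τ : Equiv.Perm X := MulAction.toPermHom G X t
  have hατ : τ * α = α ^ 2 * τ := by
    simp only [α, τ]
    rw [← map_pow, ← map_mul, ← map_mul, hrel]
  have hrange : LinearMap.range Φ ≤ LinearMap.ker (Rop α τ) := by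
    rintro _ ⟨p, rfl⟩
    rw [LinearMap.mem_ker]
    ext q
    have e1 := hdmul t a p q
    have e2 := hdmul (a ^ 2) t p q
    have e3 := hdmul a a p (t • q)
    rw [hrel] at e1
    rw [sq] at e1 e2
    change d t p (a • q) + d a p q - d a p (a • t • q) - d a p (t • q) - d t p q = 0
    rw [e2] at e1
    linarith
  have hker : ∀ p ∈ LinearMap.ker Φ, ∃ c : ℚ, p = (0, fun _ => c) := by
    intro p hp
    have hp' : Φ p = 0 := hp
    have ha : d a p = 0 := congrArg Prod.fst hp'
    have ht : d t p = 0 := congrArg (fun z => z.2.1) hp'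
    have hx : d x p = 0 := congrArg (fun z => z.2.2) hp'
    have hall : ∀ y : G, d y p = 0 := by
      intro y
      have hy : y ∈ Subgroup.closure ({x, a, t} : Set G) := by rw [hgen]; trivial
      induction hy using Subgroup.closure_induction with
      | mem y hy =>
        rcases hy with rfl | rfl | rfl
        · exact hx
        · exact ha
        · exact ht
      | one =>
        ext q
        have := hdmul 1 1 p q
        rw [mul_one, one_smul] at this
        have h0 : d 1 p q = 0 := by linarith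
        exact h0
      | mul y z _ _ hy hz =>
        ext q
        rw [hdmul, hy, hz]; simp
      | inv y _ hy =>
        ext q
        have h1 := hdmul y⁻¹ y p (y⁻¹ • q)
        have h2 := hdmul 1 1 p (y⁻¹ • q)
        rw [mul_one, one_smul] at h2
        rw [inv_mul_cancel, hy, smul_inv_smul] at h1
        have h3 : d y⁻¹ p q = 0 := by
          have : (0 : X → ℚ) (y⁻¹ • q) = 0 := rfl
          rw [this] at h1
          linarith
        exact h3
    -- the functional vanishes
    have hp1 : p.1 = 0 := by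
      apply ev_inj
      rw [map_zero]
      ext h
      let q0 : X := ((1 : G) : G ⧸ H)
      set s : G := Quotient.out q0 with hs
      have hsH : s ∈ H := by
        have : ((s : G) : G ⧸ H) = ((1 : G) : G ⧸ H) := QuotientGroup.out_eq' q0
        have h2 := QuotientGroup.eq.1 this
        rw [mul_one] at h2
        exact (inv_mem_iff).1 h2
      let y : G := s * h * s⁻¹
      have hyH : y ∈ H := H.mul_mem (H.mul_mem hsH h.2) (H.inv_mem hsH)
      have hyq : y • q0 = q0 := by
        change (((y * 1 : G)) : G ⧸ H) = ((1 : G) : G ⧸ H)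
        rw [mul_one]
        exact (QuotientGroup.eq.2 (by rw [mul_one]; exact H.inv_mem hyH))
      have h1 := congrFun (hall y) q0
      rw [hd, hyq, add_sub_cancel_right] at h1
      have h2 : dlt H y q0 = h := by
        apply Subtype.ext
        simp only [dlt]
        rw [hyq]
        change s⁻¹ * (y * s) = h
        simp only [y]; group
      rw [h2] at h1
      exact h1
    have hconst : ∀ (y : G) (q : X), p.2 (y • q) = p.2 q := by
      intro y q
      have h1 := congrFun (hall y) q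
      rw [hd, hp1, map_zero] at h1
      have h2 : (0 : H → ℚ) (dlt H y q) = 0 := rfl
      have h3 : (0 : X → ℚ) q = 0 := rfl
      rw [h2, h3] at h1
      linarith
    refine ⟨p.2 ((1 : G) : G ⧸ H), Prod.ext hp1 ?_⟩
    ext q
    obtain ⟨g, rfl⟩ := QuotientGroup.mk_surjective q
    have := hconst g ((1 : G) : G ⧸ H)
    have h2 : g • ((1 : G) : G ⧸ H) = ((g : G) : G ⧸ H) := by
      change ((g * 1 : G) : G ⧸ H) = _
      rw [mul_one]
    rw [h2] at this
    exact this
  -- dimension count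
  let cst : ℚ →ₗ[ℚ] (M × (X → ℚ)) :=
    { toFun := fun c => (0, fun _ => c)
      map_add' := by intro c c'; ext1 <;> simp; rfl
      map_smul' := by intro c c'; ext1 <;> simp; rfl }
  have hkerle : LinearMap.ker Φ ≤ LinearMap.range cst := by
    intro p hp
    obtain ⟨c, hc⟩ := hker p hp
    exact ⟨c, hc.symm⟩
  have hfk : Module.Finite ℚ (LinearMap.ker Φ) :=
    Submodule.finiteDimensional_of_le hkerle
  have hk1 : Module.finrank ℚ (LinearMap.ker Φ) ≤ 1 := by
    refine (Submodule.finrank_mono hkerle).trans ?_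
    refine (LinearMap.finrank_range_le cst).trans ?_
    simp
  have hr1 : Module.finrank ℚ (LinearMap.range Φ) ≤ 2 * Fintype.card X := by
    rw [← ker_Rop_finrank α τ hατ]
    exact Submodule.finrank_mono hrange
  have hfq : Module.Finite ℚ ((M × (X → ℚ)) ⧸ LinearMap.ker Φ) :=
    Module.Finite.equiv (LinearMap.quotKerEquivRange Φ).symm
  have hfin : Module.Finite ℚ (M × (X → ℚ)) :=
    Module.Finite.of_submodule_quotient (LinearMap.ker Φ)
  have hfinM : Module.Finite ℚ M :=
    Module.Finite.of_surjective (LinearMap.fst ℚ M (X → ℚ)) LinearMap.fst_surjective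
  have h1 := LinearMap.finrank_range_add_finrank_ker Φ
  have h2 : Module.finrank ℚ (M × (X → ℚ)) = Module.finrank ℚ M + Fintype.card X := by
    rw [Module.finrank_prod, Module.finrank_fintype_fun_eq_card]
  have h3 : Fintype.card X = H.index := by
    rw [Subgroup.index, Nat.card_eq_fintype_card]
  have h4 : Module.finrank ℚ M = bettiOne H := Subspace.dual_finrank_eq
  omega

end coc

end Pool.Agent.H919R3.Grp
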