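import Pool.Agent.H919R3.Grp.GG

set_option autoImplicit false

namespace Pool.Agent.H919R3.Grp

open Pool.Agent.H919R3.L2

section
variable {G : Type} [Group G]

/-- left translation of finitely supported functions -/
noncomputable def tau (g : G) : Equiv.Perm (G →₀ ℤ) where
  toFun v := v.mapDomain (g * ·)
  invFun v := v.mapDomain (g⁻¹ * ·)
  left_inv v := by
    simp only
    rw [← Finsupp.mapDomain_comp]
    convert Finsupp.mapDomain_id using 2
    ext x; simp
  right_inv v := by
    simp only
    rw [← Finsupp.mapDomain_comp]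
    convert Finsupp.mapDomain_id using 2
    ext x; simp

theorem tau_apply (g : G) (v : G →₀ ℤ) : tau g v = v.mapDomain (g * ·) := rfl

theorem tau_mul (g h : G) (v : G →₀ ℤ) : tau (g * h) v = tau g (tau h v) := by
  simp only [tau_apply]
  rw [← Finsupp.mapDomain_comp]
  congr 1
  ext x; simp [mul_assoc]

theorem tau_one (v : G →₀ ℤ) : tau (1 : G) v = v := by
  simp only [tau_apply]
  convert Finsupp.mapDomain_id using 2
  ext x; simp

theorem tau_add (g : G) (v w : G →₀ ℤ) : tau g (v + w) = tau g v + tau g w :=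
  Finsupp.mapDomain_add

theorem tau_zero (g : G) : tau g (0 : G →₀ ℤ) = 0 :=
  Finsupp.mapDomain_zero (f := fun x : G => g * x)

/-- tau as a homomorphism -/
noncomputable def tauHom : G →* Equiv.Perm (G →₀ ℤ) where
  toFun := tau
  map_one' := by ext1 v; exact tau_one v
  map_mul' g h := by ext1 v; exact tau_mul g h v

/-- translation by `1 ∈ ℤ[G]` -/
noncomputable def shf : Equiv.Perm (G →₀ ℤ) := Equiv.addRight (Finsupp.single 1 1)

end

section
variable {B : Type} [Group B]

/-- The affine action of `F(B) ⋊ B` on its group ring. -/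
noncomputable def rho : Wr B →* Equiv.Perm (Wr B →₀ ℤ) :=
  SemidirectProduct.lift
    (FreeGroup.lift fun b => tauHom (SemidirectProduct.inr b) * (shf * tauHom xx) *
      (tauHom (SemidirectProduct.inr b))⁻¹)
    (tauHom.comp SemidirectProduct.inr) (by
      intro b
      ext1 c
      simp only [MonoidHom.comp_apply, MulEquiv.coe_toMonoidHom, phi_of, FreeGroup.lift_apply_of,
        MulAut.conj_apply, map_mul]
      group)

theorem rho_inr (b : B) : rho (SemidirectProduct.inr b : Wr B) = tauHom (SemidirectProduct.inr b) := by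
  simp [rho]

theorem rho_xx : rho (xx : Wr B) = shf * tauHom xx := by
  unfold rho
  have h : (xx : Wr B) = SemidirectProduct.inl (FreeGroup.of 1) := rfl
  have h2 : ∀ (f1 : FreeGroup B →* Equiv.Perm (Wr B →₀ ℤ)) (f2 : B →* Equiv.Perm (Wr B →₀ ℤ)) hh,
      SemidirectProduct.lift (φ := phi B) f1 f2 hh xx = f1 (FreeGroup.of 1) := by
    intro f1 f2 hh
    rw [h, SemidirectProduct.lift_inl]
  rw [h2, FreeGroup.lift_apply_of]
  simp

/-- The derivation. -/
noncomputable def Dv (g : Wr B) : Wr B →₀ ℤ := rho g 0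

theorem rho_apply (g : Wr B) (v : Wr B →₀ ℤ) : rho g v = tau g v + Dv g := by
  have hg : g ∈ Subgroup.closure (insert xx (SemidirectProduct.inr '' (Set.univ : Set B)) :
      Set (Wr B)) := by
    rw [Wr_closure Set.univ (by rw [Subgroup.closure_univ])]; trivial
  induction hg using Subgroup.closure_induction generalizing v with
  | mem g hg =>
    rcases hg with rfl | ⟨b, -, rfl⟩
    · unfold Dv
      rw [rho_xx]
      simp only [Equiv.Perm.mul_apply, shf, Equiv.coe_addRight]
      change tau xx v + _ = tau xx v + (tau xx 0 + _)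
      rw [tau_zero, zero_add]
    · unfold Dv
      rw [rho_inr]
      change tau _ v = tau _ v + tau _ 0
      rw [tau_zero, add_zero]
  | one => unfold Dv; rw [map_one]; simp [tau_one]
  | mul g h _ _ ihg ihh =>
    have h1 : Dv (g * h) = tau g (Dv h) + Dv g := by
      unfold Dv
      rw [map_mul, Equiv.Perm.mul_apply, ihg]; rfl
    rw [map_mul, Equiv.Perm.mul_apply, ihh, ihg, h1, tau_add, tau_mul, add_assoc]
  | inv g _ ih =>
    have h1 : ∀ w, rho g⁻¹ w = tau g⁻¹ (w - Dv g) := by
      intro w
      rw [map_inv, Equiv.Perm.inv_eq_iff_eq, ih, ← tau_mul, mul_inv_cancel, tau_one]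
      abel
    have h2 : tau g⁻¹ (v - Dv g) = tau g⁻¹ v + tau g⁻¹ (0 - Dv g) := by
      rw [← tau_add]; congr 1; abel
    have h3 : Dv g⁻¹ = tau g⁻¹ (0 - Dv g) := h1 0
    rw [h1, h2, h3]

theorem Dv_isDer : IsDer (Dv (B := B)) := by
  intro g h
  have h1 : Dv (g * h) = tau g (Dv h) + Dv g := by
    unfold Dv
    rw [map_mul, Equiv.Perm.mul_apply, rho_apply]; rfl
  rw [h1, add_comm]; rfl

theorem Dv_inr (b : B) : Dv (SemidirectProduct.inr b : Wr B) = 0 := by
  unfold Dv
  rw [rho_inr]
  exact tau_zero _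

theorem Dv_xx : Dv (xx : Wr B) = Finsupp.single 1 1 := by
  unfold Dv
  rw [rho_xx]
  simp only [Equiv.Perm.mul_apply, shf, Equiv.coe_addRight]
  change tau xx 0 + _ = _
  rw [tau_zero, zero_add]

end

/-- The counterexample. -/
abbrev GG : Type := Wr A

noncomputable def aG : GG := SemidirectProduct.inr aA
noncomputable def tG : GG := SemidirectProduct.inr tA
noncomputable def xG : GG := xx

theorem GG_rel : tG * aG = aG ^ 2 * tG := by
  unfold tG aG
  rw [← map_mul, A_rel, map_mul, map_pow]

theorem GG_closure : Subgroup.closure ({xG, aG, tG} : Set GG) = ⊤ := by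
  have := Wr_closure _ A_closure
  rwa [Set.image_pair] at this

theorem GG_torsionFree (g : GG) (n : ℕ) (hn : 0 < n) (h : g ^ n = 1) : g = 1 :=
  Wr_torsionFree A_torsionFree g n hn h

theorem GG_resFin : ResFin GG := Wr_resFin A_resFin

theorem aG_ne : aG ≠ 1 := by
  intro h
  exact aA_ne (SemidirectProduct.inr_injective (by rw [map_one]; exact h))

theorem GG_fg : Group.FG GG := by
  rw [Group.fg_iff]
  exact ⟨{xG, aG, tG}, GG_closure, by simp⟩

theorem GG_lower {H : Type} [Group H] (ι : H →* GG) (hι : Function.Injective ι) (S : Finset H)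
    (hfin : ι.range.FiniteIndex) (hS : Subgroup.closure (S : Set H) = ⊤) :
    (ι.range.index : ℝ) ≤ b1l2 S :=
  lower ι hι S hfin hS Dv_isDer aG xG (Dv_inr _)
    (fun k hk h => aG_ne (GG_torsionFree _ k hk h)) Dv_xx

end Pool.Agent.H919R3.Grp
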