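import Pool.Agent.H919R3.Grp.Model

set_option autoImplicit false

namespace Pool.Agent.H919R3.Grp

/-- `B` acts on the free group with basis `B` by left translation of the basis. -/
def phi (B : Type) [Group B] : B →* MulAut (FreeGroup B) where
  toFun b := FreeGroup.freeGroupCongr (Equiv.mulLeft b)
  map_one' := by
    ext x
    simp
  map_mul' := by
    intro b c
    ext x
    simp [FreeGroup.map.comp, mul_assoc, Function.comp_def]

/-- The semidirect product `F(B) ⋊ B`, which is the free product of `B` and `ℤ`. -/
abbrev Wr (B : Type) [Group B] : Type := FreeGroup B ⋊[phi B] B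

section
variable {B : Type} [Group B]

theorem phi_of (b c : B) : phi B b (FreeGroup.of c) = FreeGroup.of (b * c) := by
  simp [phi]

/-- The generator of the factor `ℤ`. -/
def xx : Wr B := SemidirectProduct.inl (FreeGroup.of 1)

theorem inl_of (b : B) : (SemidirectProduct.inl (FreeGroup.of b) : Wr B)
    = SemidirectProduct.inr b * xx * (SemidirectProduct.inr b)⁻¹ := by
  unfold xx
  rw [← map_inv, ← SemidirectProduct.inl_aut, phi_of, mul_one]

theorem Wr_closure (s : Set B) (hs : Subgroup.closure s = ⊤) :
    Subgroup.closure (insert xx (SemidirectProduct.inr '' s) : Set (Wr B)) = ⊤ := by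
  set K := Subgroup.closure (insert xx (SemidirectProduct.inr '' s) : Set (Wr B)) with hK
  have h1 : ∀ b : B, (SemidirectProduct.inr b : Wr B) ∈ K := by
    intro b
    have hb : b ∈ Subgroup.closure s := by rw [hs]; trivial
    have : (SemidirectProduct.inr b : Wr B) ∈ (Subgroup.closure s).map SemidirectProduct.inr :=
      ⟨b, hb, rfl⟩
    rw [MonoidHom.map_closure] at this
    exact Subgroup.closure_mono (Set.subset_insert _ _) this
  have h2 : ∀ w : FreeGroup B, (SemidirectProduct.inl w : Wr B) ∈ K := by
    intro w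
    have hw : w ∈ Subgroup.closure (Set.range (FreeGroup.of : B → FreeGroup B)) := by
      rw [FreeGroup.closure_range_of]; trivial
    have : (SemidirectProduct.inl w : Wr B) ∈
        (Subgroup.closure (Set.range (FreeGroup.of : B → FreeGroup B))).map
          SemidirectProduct.inl := ⟨w, hw, rfl⟩
    rw [MonoidHom.map_closure] at this
    refine (Subgroup.closure_le K).2 ?_ this
    rintro _ ⟨_, ⟨b, rfl⟩, rfl⟩
    rw [SetLike.mem_coe, inl_of]
    exact K.mul_mem (K.mul_mem (h1 b) (Subgroup.subset_closure (Set.mem_insert _ _)))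
      (K.inv_mem (h1 b))
  rw [eq_top_iff]
  intro g _
  rw [← SemidirectProduct.inl_left_mul_inr_right g]
  exact K.mul_mem (h2 _) (h1 _)

theorem Wr_torsionFree (hB : ∀ (g : B) (n : ℕ), 0 < n → g ^ n = 1 → g = 1)
    (g : Wr B) (n : ℕ) (hn : 0 < n) (h : g ^ n = 1) : g = 1 := by
  have h1 : (SemidirectProduct.rightHom g) ^ n = 1 := by rw [← map_pow, h, map_one]
  have h2 := hB _ n hn h1
  have h3 : g = SemidirectProduct.inl g.left := by
    conv_lhs => rw [← SemidirectProduct.inl_left_mul_inr_right g]
    have : g.right = 1 := h2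
    rw [this, map_one, mul_one]
  rw [h3, ← map_pow] at h
  have h4 : g.left ^ n = 1 := SemidirectProduct.inl_injective (by rw [h, map_one])
  have h5 : g.left = 1 := by
    have := pow_left_injective (M := FreeGroup B) (by omega : n ≠ 0)
    exact this (by simpa using h4)
  rw [h3, h5, map_one]

/-- functoriality for quotients -/
noncomputable def WrMap (N : Subgroup B) [N.Normal] : Wr B →* Wr (B ⧸ N) :=
  SemidirectProduct.map (FreeGroup.map (QuotientGroup.mk' N)) (QuotientGroup.mk' N) (by
    intro b
    ext c
    simp [phi_of])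

theorem Wr_resFin_of_finite [Finite B] : ResFin (Wr B) := by
  let K : Subgroup (Wr B) := (SemidirectProduct.rightHom : Wr B →* B).ker
  have hK : K.FiniteIndex := by
    have : Finite (Wr B ⧸ K) :=
      Finite.of_injective _ (QuotientGroup.kerLift_injective (SemidirectProduct.rightHom : Wr B →* B))
    exact Subgroup.finiteIndex_of_finite_quotient
  refine ResFin.of_finiteIndex K hK ?_
  have hmem : ∀ k : K, (k : Wr B).right = 1 := fun k => k.2
  let f : K →* FreeGroup B :=
    { toFun := fun k => (k : Wr B).left
      map_one' := rfl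
      map_mul' := by
        intro k l
        simp [hmem] }
  refine ResFin.of_injective f ?_ (resFin_free B)
  intro k l hkl
  apply Subtype.ext
  apply SemidirectProduct.ext
  · exact hkl
  · rw [hmem, hmem]

theorem Wr_resFin (hB : ResFin B) : ResFin (Wr B) := by
  classical
  apply ResFin.of_homs
  intro g hg
  by_cases hr : g.right = 1
  · have hl : g.left ≠ 1 := by
      intro hl
      exact hg (SemidirectProduct.ext hl hr)
    -- a finite index normal subgroup separating the letters of `g.left`
    have hsep : ∀ p : B × B, ∃ N : Subgroup B, N.Normal ∧ N.FiniteIndex ∧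
        (p.1 ≠ p.2 → p.1⁻¹ * p.2 ∉ N) := by
      intro p
      by_cases hp : p.1 = p.2
      · exact ⟨⊤, inferInstance, inferInstance, fun h => absurd hp h⟩
      · obtain ⟨N, hN, hN2⟩ := hB (p.1⁻¹ * p.2) (by
          intro h; exact hp (inv_mul_eq_one.1 h))
        have := hN
        exact ⟨N.normalCore, inferInstance, inferInstance, fun _ h => hN2 (N.normalCore_le h)⟩
    choose N hN1 hN2 hN3 using hsep
    let Λ : Finset B := (g.left.toWord.map Prod.fst).toFinset
    let M : Subgroup B := ⨅ p ∈ Λ ×ˢ Λ, N p
    have hM1 : M.Normal := by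
      refine ⟨fun n hn c => ?_⟩
      simp only [M, Subgroup.mem_iInf] at hn ⊢
      exact fun p hp => (hN1 p).conj_mem n (hn p hp) c
    have hM2 : M.FiniteIndex := Subgroup.finiteIndex_iInf' N (fun p _ => hN2 p)
    have hfin : Finite (B ⧸ M) := Subgroup.finite_quotient_of_finiteIndex
    refine ⟨Wr (B ⧸ M), inferInstance, WrMap M, Wr_resFin_of_finite, ?_⟩
    intro h
    have h1 : FreeGroup.map (QuotientGroup.mk' M) g.left = 1 := congrArg SemidirectProduct.left h
    refine map_ne_one (QuotientGroup.mk' M) g.left hl ?_ h1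
    intro a ha b hb hab
    by_contra hne
    have hab' : a.1⁻¹ * b.1 ∈ M := QuotientGroup.eq.1 hab
    have haΛ : a.1 ∈ Λ := by
      simp only [Λ, List.mem_toFinset, List.mem_map]; exact ⟨a, ha, rfl⟩
    have hbΛ : b.1 ∈ Λ := by
      simp only [Λ, List.mem_toFinset, List.mem_map]; exact ⟨b, hb, rfl⟩
    have h2 : a.1⁻¹ * b.1 ∈ N (a.1, b.1) := by
      simp only [M, Subgroup.mem_iInf] at hab'
      exact hab' (a.1, b.1) (Finset.mk_mem_product haΛ hbΛ)
    exact hN3 (a.1, b.1) hne h2
  · exact ⟨B, inferInstance, SemidirectProduct.rightHom, hB, hr⟩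

end

end Pool.Agent.H919R3.Grp
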