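import Pool.Agent.H919R3.Grp.RF
import Pool.Agent.H919R3.L2.Lower

set_option autoImplicit false

open Matrix

namespace Pool.Agent.H919R3.Grp

/-- Invertible `2 × 2` matrices over the `3`-adic integers. -/
abbrev GL3 : Type := (Matrix (Fin 2) (Fin 2) ℤ_[3])ˣ

theorem resFin_GL3 : ResFin GL3 := by
  apply ResFin.of_homs
  intro g hg
  have h1 : ∃ i j, (g : Matrix (Fin 2) (Fin 2) ℤ_[3]) i j ≠ (1 : Matrix (Fin 2) (Fin 2) ℤ_[3]) i j := by
    by_contra hcon
    push Not at hcon
    exact hg (Units.ext (by ext i j; exact hcon i j))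
  obtain ⟨i, j, hij⟩ := h1
  have h2 : ∃ n, PadicInt.toZModPow n ((g : Matrix (Fin 2) (Fin 2) ℤ_[3]) i j)
      ≠ PadicInt.toZModPow n ((1 : Matrix (Fin 2) (Fin 2) ℤ_[3]) i j) := by
    by_contra hcon
    push Not at hcon
    exact hij (PadicInt.ext_of_toZModPow.1 hcon)
  obtain ⟨n, hn⟩ := h2
  have : NeZero (3 ^ n) := ⟨by positivity⟩
  let rd : Matrix (Fin 2) (Fin 2) ℤ_[3] →+* Matrix (Fin 2) (Fin 2) (ZMod (3 ^ n)) :=
    (PadicInt.toZModPow (p := 3) n).mapMatrix
  let f : GL3 →* (Matrix (Fin 2) (Fin 2) (ZMod (3 ^ n)))ˣ := Units.map rd.toMonoidHom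
  refine ⟨(Matrix (Fin 2) (Fin 2) (ZMod (3 ^ n)))ˣ, inferInstance, f, ResFin.of_finite, ?_⟩
  intro h
  apply hn
  have h4 : (PadicInt.toZModPow (p := 3) n) ((g : Matrix (Fin 2) (Fin 2) ℤ_[3]) i j)
      = (1 : Matrix (Fin 2) (Fin 2) (ZMod (3 ^ n))) i j :=
    congrArg (fun u : (Matrix (Fin 2) (Fin 2) (ZMod (3 ^ n)))ˣ =>
      (u : Matrix (Fin 2) (Fin 2) (ZMod (3 ^ n))) i j) h
  rw [h4]
  by_cases hd : i = j
  · subst hd; simp
  · simp [hd]

/-- The matrix `a`. -/
noncomputable def ma : GL3 where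
  val := !![1, 1; 0, 1]
  inv := !![1, -1; 0, 1]
  val_inv := by simp [Matrix.one_fin_two]
  inv_val := by simp [Matrix.one_fin_two]

theorem isUnit_two : IsUnit (2 : ℤ_[3]) := by
  rw [PadicInt.isUnit_iff]
  have h : ‖((2 : ℤ) : ℤ_[3])‖ = 1 := by
    rw [PadicInt.norm_intCast_eq_one_iff]
    exact ⟨-1, 1, by norm_num⟩
  exact_mod_cast h

/-- `2` as a unit. -/
noncomputable def u2 : ℤ_[3]ˣ := isUnit_two.unit

theorem u2_val : (u2 : ℤ_[3]) = 2 := rfl

/-- The matrix `t`. -/
noncomputable def mt : GL3 where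
  val := !![(u2 : ℤ_[3]), 0; 0, 1]
  inv := !![((u2⁻¹ : ℤ_[3]ˣ) : ℤ_[3]), 0; 0, 1]
  val_inv := by simp [Matrix.one_fin_two]
  inv_val := by simp [Matrix.one_fin_two]

theorem mt_ma : mt * ma = ma ^ 2 * mt := by
  apply Units.ext
  simp only [Units.val_mul, mt, ma, sq]
  simp only [Matrix.mul_fin_two, u2_val]
  norm_num

/-- determinant -/
noncomputable def dt : GL3 →* ℤ_[3]ˣ := Units.map (Matrix.detMonoidHom (n := Fin 2) (R := ℤ_[3]))

/-- upper triangular matrices with lower right entry `1` and determinant a power of `2` -/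
noncomputable def UU : Subgroup GL3 where
  carrier := {g | Matrix.vecMul ![0, 1] (g : Matrix (Fin 2) (Fin 2) ℤ_[3]) = ![0, 1] ∧
    dt g ∈ Subgroup.zpowers u2}
  mul_mem' := by
    rintro g h ⟨hg1, hg2⟩ ⟨hh1, hh2⟩
    refine ⟨?_, ?_⟩
    · rw [Units.val_mul, ← Matrix.vecMul_vecMul, hg1, hh1]
    · rw [map_mul]; exact mul_mem hg2 hh2
  one_mem' := by
    refine ⟨?_, ?_⟩
    · rw [Units.val_one, Matrix.vecMul_one]
    · rw [map_one]; exact one_mem _
  inv_mem' := by
    rintro g ⟨hg1, hg2⟩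
    refine ⟨?_, ?_⟩
    · have h1 : Matrix.vecMul (Matrix.vecMul ![0, 1] (g : Matrix (Fin 2) (Fin 2) ℤ_[3]))
          ((g⁻¹ : GL3) : Matrix (Fin 2) (Fin 2) ℤ_[3]) = ![0, 1] := by
        rw [Matrix.vecMul_vecMul, ← Units.val_mul, mul_inv_cancel, Units.val_one,
          Matrix.vecMul_one]
      rw [hg1] at h1
      exact h1
    · rw [map_inv]; exact inv_mem hg2

theorem ma_mem : ma ∈ UU := by
  refine ⟨?_, ?_⟩
  · ext i; fin_cases i <;> simp [ma, Matrix.vecMul, dotProduct, Fin.sum_univ_two]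
  · have : dt ma = 1 := by
      apply Units.ext
      simp [dt, ma, Matrix.det_fin_two]
    rw [this]; exact one_mem _

theorem mt_mem : mt ∈ UU := by
  refine ⟨?_, ?_⟩
  · ext i; fin_cases i <;> simp [mt, Matrix.vecMul, dotProduct, Fin.sum_univ_two]
  · have : dt mt = u2 := by
      apply Units.ext
      simp [dt, mt, Matrix.det_fin_two]
    rw [this]; exact Subgroup.mem_zpowers _

theorem two_pow_ne (n : ℕ) (hn : 0 < n) : u2 ^ n ≠ 1 := by
  intro h
  have h1 := congrArg Units.val h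
  rw [Units.val_pow_eq_pow_val, u2_val, Units.val_one] at h1
  have h2 : ((2 ^ n : ℕ) : ℤ_[3]) = ((1 : ℕ) : ℤ_[3]) := by push_cast; exact h1
  have h3 : 2 ^ n = 1 := Nat.cast_injective h2
  have h4 : 1 < 2 ^ n := Nat.one_lt_two_pow (by omega)
  omega

theorem UU_torsionFree (g : GL3) (hg : g ∈ UU) (n : ℕ) (hn : 0 < n) (h : g ^ n = 1) : g = 1 := by
  obtain ⟨h1, h2⟩ := hg
  have e10 : (g : Matrix (Fin 2) (Fin 2) ℤ_[3]) 1 0 = 0 := by
    have := congrFun h1 0
    simpa [Matrix.vecMul, dotProduct, Fin.sum_univ_two] using this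
  have e11 : (g : Matrix (Fin 2) (Fin 2) ℤ_[3]) 1 1 = 1 := by
    have := congrFun h1 1
    simpa [Matrix.vecMul, dotProduct, Fin.sum_univ_two] using this
  have hdt : dt g = 1 := by
    obtain ⟨k, hk⟩ := h2
    change u2 ^ k = dt g at hk
    have h3 : (u2 ^ k) ^ n = 1 := by rw [hk, ← map_pow, h, map_one]
    have hk0 : k = 0 := by
      by_contra hk0
      have h4 : u2 ^ (k.natAbs * n) = 1 := by
        rcases Int.natAbs_eq k with hk' | hk'
        · rw [pow_mul]
          rw [hk', zpow_natCast] at h3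
          exact h3
        · rw [pow_mul]
          rw [hk', _root_.zpow_neg, zpow_natCast, inv_pow, inv_eq_one] at h3
          exact h3
      exact two_pow_ne _ (Nat.mul_pos (Int.natAbs_pos.2 hk0) hn) h4
    rw [← hk, hk0, zpow_zero]
  have e00 : (g : Matrix (Fin 2) (Fin 2) ℤ_[3]) 0 0 = 1 := by
    have h3 := congrArg Units.val hdt
    simp only [dt, Units.coe_map, Units.val_one] at h3
    have h4 : (g : Matrix (Fin 2) (Fin 2) ℤ_[3]).det = 1 := h3
    rw [Matrix.det_fin_two, e10, e11] at h4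
    simpa using h4
  set c := (g : Matrix (Fin 2) (Fin 2) ℤ_[3]) 0 1 with hc
  have hgm : (g : Matrix (Fin 2) (Fin 2) ℤ_[3]) = !![1, c; 0, 1] := by
    ext i j
    fin_cases i <;> fin_cases j <;> simp [e10, e11, e00, hc]
  have hpow : ∀ m : ℕ, ((g ^ m : GL3) : Matrix (Fin 2) (Fin 2) ℤ_[3]) = !![1, m * c; 0, 1] := by
    intro m
    induction m with
    | zero => simp [Matrix.one_fin_two]
    | succ m ih =>
      rw [pow_succ, Units.val_mul, ih, hgm, Matrix.mul_fin_two]
      simp [add_mul, add_comm]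
  have h5 := hpow n
  rw [h, Units.val_one] at h5
  have h6 := congrFun (congrFun h5 0) 1
  simp at h6
  have hc0 : c = 0 := by
    rcases h6 with h6 | h6
    · omega
    · exact h6
  apply Units.ext
  rw [hgm, hc0, Units.val_one, Matrix.one_fin_two]

/-- The subgroup generated by `a` and `t`. -/
noncomputable def AA : Subgroup GL3 := Subgroup.closure {ma, mt}

theorem AA_le : AA ≤ UU := by
  unfold AA
  rw [Subgroup.closure_le]
  rintro g (rfl | rfl)
  · exact ma_mem
  · exact mt_mem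

/-- The group `A`. -/
abbrev A : Type := AA

noncomputable def aA : A := ⟨ma, Subgroup.subset_closure (by simp)⟩
noncomputable def tA : A := ⟨mt, Subgroup.subset_closure (by simp)⟩

theorem A_rel : tA * aA = aA ^ 2 * tA := Subtype.ext mt_ma

theorem A_torsionFree (g : A) (n : ℕ) (hn : 0 < n) (h : g ^ n = 1) : g = 1 := by
  apply Subtype.ext
  exact UU_torsionFree g.1 (AA_le g.2) n hn (by
    have := congrArg Subtype.val h
    simpa using this)

theorem aA_ne : aA ≠ 1 := by
  intro h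
  have h1 := congrArg (fun x : A => ((x : GL3) : Matrix (Fin 2) (Fin 2) ℤ_[3]) 0 1) h
  simp [aA, ma] at h1

theorem A_resFin : ResFin A := ResFin.of_injective AA.subtype AA.subtype_injective resFin_GL3

theorem A_closure : Subgroup.closure ({aA, tA} : Set A) = ⊤ := by
  have h1 : Subgroup.closure (((↑) : A → GL3) ⁻¹' {ma, mt}) = ⊤ :=
    Subgroup.closure_closure_coe_preimage
  convert h1 using 2
  ext x
  simp only [Set.mem_insert_iff, Set.mem_singleton_iff, Set.mem_preimage, aA, tA]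
  constructor
  · rintro (rfl | rfl) <;> simp
  · rintro (h | h)
    · left; exact Subtype.ext h
    · right; exact Subtype.ext h

end Pool.Agent.H919R3.Grp
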