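import Pool.Agent.H919R3.Grp.Der
import Pool.Agent.H919R3.Stmt.Defs

set_option autoImplicit false

namespace Pool.Agent.H919R3.Grp

open Pool.Agent.H919R3.Stmt

/-- the group with two elements -/
abbrev C2 : Type := Multiplicative (ZMod 2)

theorem C2_sq (c : C2) : c ^ 2 = 1 := by
  revert c; decide

theorem hom_ext (f f' : GG →* C2) (h1 : f xG = f' xG) (h2 : f tG = f' tG) : f = f' := by
  have key : ∀ f : GG →* C2, f aG = 1 := by
    intro f
    have h := congrArg f GG_rel
    rw [map_mul, map_mul, map_pow, C2_sq, one_mul] at h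
    exact mul_eq_left.1 h
  apply MonoidHom.eq_of_eqOn_dense GG_closure
  rintro y (rfl | rfl | rfl)
  · exact h1
  · rw [key, key]
  · exact h2

theorem no_iso {α : Type} (r : FreeGroup α) (hr : ∀ f : α → C2, FreeGroup.lift f r = 1)
    (ι : Fin 3 → α) (hι : Function.Injective ι) : ¬ Nonempty (GG ≃* PresentedGroup {r}) := by
  rintro ⟨e⟩
  classical
  let F : (α → C2) → (PresentedGroup {r} →* C2) := fun f =>
    PresentedGroup.toGroup (f := f) (by
      intro s hs
      rw [Set.mem_singleton_iff.1 hs]
      exact hr f)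
  have hF : ∀ f y, F f (PresentedGroup.of y) = f y := by
    intro f y
    exact PresentedGroup.toGroup.of _
  let ex : (Fin 3 → C2) → (α → C2) := fun v => Function.extend ι v 1
  let T : (Fin 3 → C2) → C2 × C2 := fun v => (F (ex v) (e xG), F (ex v) (e tG))
  have hT : Function.Injective T := by
    intro v w hvw
    have h1 : (F (ex v)).comp e.toMonoidHom = (F (ex w)).comp e.toMonoidHom :=
      hom_ext _ _ (congrArg Prod.fst hvw) (congrArg Prod.snd hvw)
    have h2 : ∀ y, F (ex v) y = F (ex w) y := by
      intro y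
      have := DFunLike.congr_fun h1 (e.symm y)
      simpa using this
    ext i
    have h3 := h2 (PresentedGroup.of (ι i))
    rw [hF, hF] at h3
    simp only [ex, hι.extend_apply] at h3
    exact h3
  have hcard := Fintype.card_le_of_injective T hT
  rw [Fintype.card_prod, Fintype.card_fun] at hcard
  have h2 : Fintype.card C2 = 2 := by decide
  rw [h2, Fintype.card_fin] at hcard
  omega

theorem not_surface : ¬ IsHypSurface GG := by
  rintro (⟨g, hg, h⟩ | ⟨k, hk, h⟩)
  · refine no_iso (orRel g) ?_
      (fun i => if i = 0 then (⟨0, by omega⟩, false) else if i = 1 then (⟨0, by omega⟩, true)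
        else (⟨1, by omega⟩, false)) ?_ h
    · intro f
      unfold orRel
      rw [map_list_prod, List.prod_eq_one]
      intro x hx
      rw [List.mem_map] at hx
      obtain ⟨y, hy, rfl⟩ := hx
      rw [List.mem_ofFn] at hy
      obtain ⟨i, rfl⟩ := hy
      rw [map_mul, map_mul, map_mul, map_inv, map_inv, mul_comm (FreeGroup.lift f _)]
      simp
    · intro i j hij
      fin_cases i <;> fin_cases j <;> simp_all
  · refine no_iso (nonRel k) ?_ (fun i => ⟨i.1, by omega⟩) ?_ h
    · intro f
      unfold nonRel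
      rw [map_list_prod, List.prod_eq_one]
      intro x hx
      rw [List.mem_map] at hx
      obtain ⟨y, hy, rfl⟩ := hx
      rw [List.mem_ofFn] at hy
      obtain ⟨i, rfl⟩ := hy
      rw [map_pow]
      exact C2_sq _
    · intro i j hij
      exact Fin.ext (by simpa using hij)

theorem not_free : ¬ IsFreeGroup GG := by
  intro hfree
  let e := IsFreeGroup.toFreeGroup GG
  have hne : e aG ≠ 1 := by
    intro h
    exact aG_ne (e.injective (by rw [h, map_one]))
  obtain ⟨Q, hQ1, hQ2, f, hQ, hf⟩ := Pool.Agent.Helper867.PF.free_res (e aG) hne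
  have hrel : f (e tG) * f (e aG) = f (e aG) ^ 2 * f (e tG) := by
    have := congrArg (fun y => f (e y)) GG_rel
    simpa using this
  set a' := f (e aG)
  set t' := f (e tG)
  have h1 : MulAut.conj t' a' = a' ^ 2 := by
    rw [MulAut.conj_apply, hrel]; group
  have h2 : orderOf (a' ^ 2) = orderOf a' := by
    rw [← h1]; exact (MulAut.conj t').orderOf_eq a'
  obtain ⟨k, hk⟩ := (IsPGroup.iff_orderOf.1 hQ) a'
  rw [orderOf_pow' a' (by norm_num), hk] at h2
  rcases Nat.eq_zero_or_pos k with h0 | h0
  · subst h0
    rw [pow_zero, orderOf_eq_one_iff] at hk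
    exact hf hk
  · obtain ⟨j, rfl⟩ : ∃ j, k = j + 1 := ⟨k - 1, by omega⟩
    have h3 : Nat.gcd (2 ^ (j + 1)) 2 = 2 := Nat.gcd_eq_right (dvd_pow_self 2 (by omega))
    rw [h3, pow_succ] at h2
    have : 0 < 2 ^ j := by positivity
    omega

end Pool.Agent.H919R3.Grp
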