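import Mathlib
import Pool.Agent.Helper867.PF.FreeRes

set_option autoImplicit false

namespace Pool.Agent.H919R3.Grp

/-- Residual finiteness: every nontrivial element is avoided by a subgroup of finite index. -/
def ResFin (G : Type) [Group G] : Prop := ∀ g : G, g ≠ 1 → ∃ N : Subgroup G, N.FiniteIndex ∧ g ∉ N

theorem ResFin.of_homs {G : Type} [Group G]
    (h : ∀ g : G, g ≠ 1 → ∃ (Q : Type) (_ : Group Q) (f : G →* Q), ResFin Q ∧ f g ≠ 1) :
    ResFin G := by
  intro g hg
  obtain ⟨Q, _, f, hQ, hf⟩ := h g hg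
  obtain ⟨N, hN, hgN⟩ := hQ (f g) hf
  refine ⟨N.comap f, ⟨?_⟩, hgN⟩
  rw [Subgroup.index_comap]
  have := hN
  have h2 : N.IsFiniteRelIndex f.range := Subgroup.isFiniteRelIndex_of_finiteIndex
  exact h2.relIndex_ne_zero

theorem ResFin.of_finite {G : Type} [Group G] [Finite G] : ResFin G := by
  intro g hg
  exact ⟨⊥, inferInstance, by simpa using hg⟩

theorem ResFin.of_injective {G Q : Type} [Group G] [Group Q] (f : G →* Q)
    (hf : Function.Injective f) (hQ : ResFin Q) : ResFin G := by
  apply ResFin.of_homs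
  intro g hg
  exact ⟨Q, _, f, hQ, fun h => hg (hf (by rw [h, map_one]))⟩

theorem ResFin.of_finiteIndex {G : Type} [Group G] (K : Subgroup G) (hK : K.FiniteIndex)
    (h : ResFin K) : ResFin G := by
  intro g hg
  by_cases hgK : g ∈ K
  · obtain ⟨N, hN, hgN⟩ := h ⟨g, hgK⟩ (by intro hh; exact hg (congrArg Subtype.val hh))
    refine ⟨N.map K.subtype, ⟨?_⟩, ?_⟩
    · rw [Subgroup.index_map_subtype]
      exact mul_ne_zero hN.index_ne_zero hK.index_ne_zero
    · rintro ⟨k, hk, hkg⟩
      apply hgN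
      have : k = ⟨g, hgK⟩ := Subtype.ext hkg
      rwa [← this]
  · exact ⟨K, hK, hgK⟩

theorem resFin_free (α : Type) : ResFin (FreeGroup α) := by
  apply ResFin.of_homs
  intro g hg
  obtain ⟨Q, hQ1, hQ2, f, -, hf⟩ := Pool.Agent.Helper867.PF.free_res g hg
  exact ⟨Q, hQ1, f, ResFin.of_finite, hf⟩

/-- Reduced words stay nontrivial under maps which are injective on their letters. -/
theorem map_ne_one {α β : Type} [DecidableEq α] [DecidableEq β] (f : α → β) (w : FreeGroup α) (hw : w ≠ 1)
    (hf : ∀ a ∈ w.toWord, ∀ b ∈ w.toWord, f a.1 = f b.1 → a.1 = b.1) :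
    FreeGroup.map f w ≠ 1 := by
  set L := w.toWord with hL
  have hred : FreeGroup.IsReduced L := FreeGroup.isReduced_toWord
  have hred2 : FreeGroup.IsReduced (L.map fun x => (f x.1, x.2)) := by
    unfold FreeGroup.IsReduced at hred ⊢
    rw [List.isChain_map]
    refine List.IsChain.imp_of_mem_imp ?_ hred
    intro a b ha hb hab hfab
    exact hab (hf a ha b hb hfab)
  have h1 : FreeGroup.map f w = FreeGroup.mk (L.map fun x => (f x.1, x.2)) := by
    conv_lhs => rw [← FreeGroup.mk_toWord (x := w)]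
    rw [FreeGroup.map.mk]
  rw [h1]
  intro h2
  have h3 := congrArg FreeGroup.toWord h2
  rw [FreeGroup.toWord_mk, FreeGroup.toWord_one, hred2.reduce_eq] at h3
  have h4 : L = [] := by simpa using h3
  apply hw
  rw [← FreeGroup.toWord_eq_nil_iff]
  exact h4

end Pool.Agent.H919R3.Grp
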